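import Pool.Agent.P.MP_930073_lc.Main

namespace Pool.Agent.Results.MP_930073_lc.Counterexample

open Pool.Agent.P.MP_930073_lc

/-- Negative answer to Q1: there are a standard Borel space `X`, an analytic quasi-order `S` on
`X` and analytic equivalence relations `E, F ⊆ E_S` such that `(S, F)` is invariantly universal
and `E ≤_B F`, but `(S, E)` is not invariantly universal. -/
theorem result :
    ∃ (X : Type) (_ : MeasurableSpace X) (_ : StandardBorelSpace X) (S E F : X → X → Prop),
      IsAnalyticQuasiOrder S ∧ IsAnalyticEquivalence E ∧ IsAnalyticEquivalence F ∧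
      (∀ x y, E x y → S x y ∧ S y x) ∧ (∀ x y, F x y → S x y ∧ S y x) ∧
      InvariantlyUniversal S F ∧ BorelReducible E F ∧ ¬ InvariantlyUniversal S E :=
  counterexample

end Pool.Agent.Results.MP_930073_lc.Counterexample
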